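import Pool.Agent.K1H93.NF.Stm

set_option autoImplicit false

/-! Residue degree and separated embeddings (task 176). -/

namespace Pool.Agent.K1H31.NF

open Module

/-- counting embeddings -/
lemma count {kA kA' kO : Type} [Field kA] [Field kA'] [Field kO] [Algebra kA kA'] [Algebra kA kO]
    [FiniteDimensional kA kA'] (K : IntermediateField kA kA') {I : Type} [Finite I]
    (φ : I → (kA' →ₐ[kA] kO)) (hφ : ∀ a b, a ≠ b → ∃ x ∈ K, φ a x ≠ φ b x) :
    Nat.card I ≤ finrank kA K := by
  have hinj : Function.Injective (fun a : I => (φ a).comp K.val) := by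
    intro a b hab
    by_contra hne
    obtain ⟨x, hx, hxy⟩ := hφ a b hne
    apply hxy
    exact DFunLike.congr_fun hab (⟨x, hx⟩ : K)
  exact (Nat.card_le_card_of_injective _ hinj).trans (card_algHom_le_finrank kA K kO)

/-- linear independence lifts from the residue fields -/
lemma lift_indep {L E : Type} [Field L] [Field E] [Algebra L E] [FiniteDimensional L E]
    (A : ValuationSubring L) (A' : ValuationSubring E) (hA : ∀ z : L, algebraMap L E z ∈ A' ↔ z ∈ A)
    (j : IsLocalRing.ResidueField A →+* IsLocalRing.ResidueField A')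
    (hj : ∀ (z : A) (hz : algebraMap L E z ∈ A'),
        j (IsLocalRing.residue A z) = IsLocalRing.residue A' ⟨algebraMap L E z, hz⟩) :
    @Module.rank (IsLocalRing.ResidueField A) (IsLocalRing.ResidueField A') _ _
      j.toAlgebra.toModule ≤ (finrank L E : Cardinal) := by
  let := j.toAlgebra
  refine rank_le fun s hs => ?_
  -- lifts
  have hlift : ∀ i : s, ∃ w : A', IsLocalRing.residue A' w = (i : IsLocalRing.ResidueField A') :=
    fun i => IsLocalRing.residue_surjective _
  choose w hw using hlift
  have hli : LinearIndependent L (fun i : s => (w i : E)) := by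
    rw [Fintype.linearIndependent_iff]
    intro c hc
    by_contra hcon
    push Not at hcon
    obtain ⟨i1, hi1⟩ := hcon
    obtain ⟨i0, -, hi0⟩ := Finset.exists_max_image (Finset.univ : Finset s)
      (fun i => A.valuation (c i)) ⟨i1, Finset.mem_univ _⟩
    have hc0 : c i0 ≠ 0 := by
      intro h0
      have h1 := hi0 i1 (Finset.mem_univ _)
      rw [h0, map_zero, le_zero_iff, map_eq_zero] at h1
      exact hi1 h1
    have hd : ∀ i, c i / c i0 ∈ A := by
      intro i
      rw [← ValuationSubring.valuation_le_one_iff, map_div₀]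
      have h1 := hi0 i (Finset.mem_univ _)
      exact div_le_one_of_le₀ h1 zero_le
    have hsum : ∑ i, algebraMap L E (c i / c i0) * (w i : E) = 0 := by
      have h1 : ∑ i, algebraMap L E (c i / c i0) * (w i : E) =
          algebraMap L E (c i0)⁻¹ * ∑ i, c i • (w i : E) := by
        rw [Finset.mul_sum]
        refine Finset.sum_congr rfl fun i _ => ?_
        rw [Algebra.smul_def, div_eq_mul_inv, map_mul]
        ring
      rw [h1, hc, mul_zero]
    have hsum' : ∑ i, (⟨algebraMap L E (c i / c i0), (hA _).2 (hd i)⟩ : A') * w i = 0 := by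
      apply Subtype.ext
      calc ((∑ i, (⟨algebraMap L E (c i / c i0), (hA _).2 (hd i)⟩ : A') * w i : A') : E)
          = ∑ i, (((⟨algebraMap L E (c i / c i0), (hA _).2 (hd i)⟩ : A') * w i : A') : E) :=
            map_sum A'.subtype _ _
        _ = 0 := hsum
    have hres := congrArg (IsLocalRing.residue A') hsum'
    rw [map_sum, map_zero] at hres
    rw [Fintype.linearIndependent_iff] at hs
    have h2 := hs (fun i => IsLocalRing.residue A ⟨c i / c i0, hd i⟩) (by
      rw [← hres]
      refine Finset.sum_congr rfl fun i _ => ?_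
      rw [map_mul, hw, Algebra.smul_def]
      congr 1
      exact hj ⟨c i / c i0, hd i⟩ ((hA _).2 (hd i))) i0
    have h3 : (⟨c i0 / c i0, hd i0⟩ : A) = 1 := Subtype.ext (div_self hc0)
    rw [h3, map_one] at h2
    exact one_ne_zero h2
  have := hli.fintype_card_le_finrank
  simpa using this

theorem t_ETL : Pool.Agent.K1H93.NF.S_ETL := by
  classical
  intro L E M _ _ _ _ _ _ _ _ A A' O hO hA' m v hv
  have hne : Nonempty (E →ₐ[L] M) := ⟨IsAlgClosed.lift⟩
  obtain ⟨ψ0⟩ := hne
  have hA : ∀ z : L, algebraMap L E z ∈ A' ↔ z ∈ A := by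
    intro z
    rw [← hA' ψ0, AlgHom.commutes, hO]
  -- the ring homomorphisms
  let f : A →+* A' :=
    { toFun := fun z => ⟨algebraMap L E z, (hA _).2 z.2⟩
      map_one' := Subtype.ext (by simp)
      map_zero' := Subtype.ext (by simp)
      map_mul' := fun x y => Subtype.ext (by simp)
      map_add' := fun x y => Subtype.ext (by simp) }
  have hf : ∀ z : A, ((f z : A') : E) = algebraMap L E z := fun z => rfl
  have : IsLocalHom f := by
    refine ⟨fun z hz => ?_⟩
    have h1 : f z ≠ 0 := hz.ne_zero
    have hz0 : (z : L) ≠ 0 := by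
      intro h0
      apply h1
      apply Subtype.ext
      rw [hf, h0, map_zero]
      rfl
    obtain ⟨u, hu⟩ := hz
    have h2 : ((u⁻¹ : A'ˣ) : A') * f z = 1 := by rw [← hu]; simp
    have h3 : (((u⁻¹ : A'ˣ) : A') : E) = algebraMap L E (z : L)⁻¹ := by
      have h4 := congrArg (fun x : A' => (x : E)) h2
      simp only [MulMemClass.coe_mul, OneMemClass.coe_one, hf] at h4
      rw [map_inv₀]
      exact eq_inv_of_mul_eq_one_left h4
    have h5 : (z : L)⁻¹ ∈ A := by
      rw [← hA, ← h3]
      exact Subtype.property _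
    exact ⟨⟨z, ⟨_, h5⟩, Subtype.ext (mul_inv_cancel₀ hz0), Subtype.ext (inv_mul_cancel₀ hz0)⟩, rfl⟩
  let g : (E →ₐ[L] M) → (A' →+* O) := fun ψ =>
    { toFun := fun z => ⟨ψ z, (hA' ψ _).2 z.2⟩
      map_one' := Subtype.ext (by simp)
      map_zero' := Subtype.ext (by simp)
      map_mul' := fun x y => Subtype.ext (by simp)
      map_add' := fun x y => Subtype.ext (by simp) }
  have hg : ∀ ψ (z : A'), ((g ψ z : O) : M) = ψ z := fun ψ z => rfl
  have hgl : ∀ ψ, IsLocalHom (g ψ) := by
    intro ψ
    refine ⟨fun z hz => ?_⟩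
    have h1 : g ψ z ≠ 0 := hz.ne_zero
    have hz0 : (z : E) ≠ 0 := by
      intro h0
      apply h1
      apply Subtype.ext
      rw [hg, h0, map_zero]
      rfl
    obtain ⟨u, hu⟩ := hz
    have h2 : ((u⁻¹ : Oˣ) : O) * g ψ z = 1 := by rw [← hu]; simp
    have h3 : (((u⁻¹ : Oˣ) : O) : M) = ψ (z : E)⁻¹ := by
      have h4 := congrArg (fun x : O => (x : M)) h2
      simp only [MulMemClass.coe_mul, OneMemClass.coe_one, hg] at h4
      rw [map_inv₀]
      exact eq_inv_of_mul_eq_one_left h4
    have h5 : (z : E)⁻¹ ∈ A' := by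
      rw [← hA' ψ, ← h3]
      exact Subtype.property _
    exact ⟨⟨z, ⟨_, h5⟩, Subtype.ext (mul_inv_cancel₀ hz0), Subtype.ext (inv_mul_cancel₀ hz0)⟩, rfl⟩
  let j : IsLocalRing.ResidueField A →+* IsLocalRing.ResidueField A' :=
    IsLocalRing.ResidueField.map f
  have hj : ∀ (z : A) (hz : algebraMap L E z ∈ A'),
      j (IsLocalRing.residue A z) = IsLocalRing.residue A' ⟨algebraMap L E z, hz⟩ := fun z hz => rfl
  refine ⟨j, hj, ?_⟩
  let i1 : Algebra (IsLocalRing.ResidueField A) (IsLocalRing.ResidueField A') := j.toAlgebra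
  let i2 : Algebra (IsLocalRing.ResidueField A) (IsLocalRing.ResidueField O) :=
    ((IsLocalRing.ResidueField.map (g ψ0)).comp j).toAlgebra
  have hrank : Module.rank (IsLocalRing.ResidueField A) (IsLocalRing.ResidueField A') ≤
      (finrank L E : Cardinal) := lift_indep A A' hA j hj
  have hfin : FiniteDimensional (IsLocalRing.ResidueField A) (IsLocalRing.ResidueField A') := by
    rw [FiniteDimensional, ← Module.rank_lt_aleph0_iff]
    exact hrank.trans_lt (Cardinal.natCast_lt_aleph0)
  have hle : finrank (IsLocalRing.ResidueField A) (IsLocalRing.ResidueField A') ≤ finrank L E := by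
    have h0 : (finrank (IsLocalRing.ResidueField A) (IsLocalRing.ResidueField A') : Cardinal) ≤
        (finrank L E : Cardinal) := by
      rw [Module.finrank_eq_rank]
      exact hrank
    exact_mod_cast h0
  have hcard : Nat.card (E →ₐ[L] M) = finrank L E :=
    AlgHom.natCard_of_splits L E M (fun _ => IsAlgClosed.splits _)
  -- the induced embeddings
  let φ : (E →ₐ[L] M) → (IsLocalRing.ResidueField A' →ₐ[IsLocalRing.ResidueField A]
      IsLocalRing.ResidueField O) := fun ψ =>
    { toRingHom := IsLocalRing.ResidueField.map (g ψ)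
      commutes' := by
        intro x
        obtain ⟨z, rfl⟩ := IsLocalRing.residue_surjective x
        show IsLocalRing.ResidueField.map (g ψ) (j (IsLocalRing.residue A z)) =
          IsLocalRing.ResidueField.map (g ψ0) (j (IsLocalRing.residue A z))
        show IsLocalRing.residue O (g ψ (f z)) = IsLocalRing.residue O (g ψ0 (f z))
        congr 1
        apply Subtype.ext
        rw [hg, hg, hf, AlgHom.commutes, AlgHom.commutes] }
  have hφ : ∀ ψ (z : A'), φ ψ (IsLocalRing.residue A' z) = IsLocalRing.residue O (g ψ z) :=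
    fun ψ z => rfl
  have hsep : ∀ ψ ψ' : E →ₐ[L] M, ψ ≠ ψ' → ∃ i, φ ψ (IsLocalRing.residue A' (v i)) ≠
      φ ψ' (IsLocalRing.residue A' (v i)) := by
    intro ψ ψ' hne
    obtain ⟨i, hi⟩ := hv ψ ψ' hne
    refine ⟨i, fun h => hi ?_⟩
    rw [hφ, hφ, ← sub_eq_zero, ← map_sub, IsLocalRing.residue_eq_zero_iff,
      ValuationSubring.valuation_lt_one_iff] at h
    exact h
  have hcount : ∀ K : IntermediateField (IsLocalRing.ResidueField A) (IsLocalRing.ResidueField A'),
      (∀ i, IsLocalRing.residue A' (v i) ∈ K) →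
      finrank L E ≤ finrank (IsLocalRing.ResidueField A) K := by
    intro K hK
    rw [← hcard]
    refine count K φ fun a b hab => ?_
    obtain ⟨i, hi⟩ := hsep a b hab
    exact ⟨_, hK i, hi⟩
  have htop : finrank (IsLocalRing.ResidueField A) (IsLocalRing.ResidueField A') = finrank L E := by
    refine le_antisymm hle ?_
    have h1 := hcount ⊤ (fun i => IntermediateField.mem_top)
    rwa [IntermediateField.finrank_top'] at h1
  refine ⟨htop, fun K hK hvK => ?_⟩
  let K' : IntermediateField (IsLocalRing.ResidueField A) (IsLocalRing.ResidueField A') :=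
    { K with algebraMap_mem' := fun x => hK x }
  have hK' : K' = ⊤ := by
    apply IntermediateField.eq_of_le_of_finrank_le le_top
    rw [IntermediateField.finrank_top', htop]
    exact hcount K' hvK
  ext x
  constructor
  · intro _
    exact Subfield.mem_top x
  · intro _
    have h1 : x ∈ K' := by rw [hK']; exact IntermediateField.mem_top
    exact h1

end Pool.Agent.K1H31.NF
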